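import Pool.Agent.WR4.Stmts
import Pool.Agent.Helper60_WIR.PRJ

/-!
# Row SYC of the squad WR4 (helper86): the masses of the residue classes
-/

set_option autoImplicit false

namespace Pool.Agent.WR4.H86

open Pool.Agent.WIR Pool.Agent.WR2 Pool.Agent.WR3 Pool.Agent.WR4
open scoped BigOperators ENNReal Topology
open Filter MeasureTheory

theorem pj_toZModPow {n m : ℕ} (h : n ≤ m) (x : ℤ_[3]) :
    pj n m (PadicInt.toZModPow m x) = PadicInt.toZModPow n x := by
  rw [pj, ZMod.natCast_val]
  exact PadicInt.cast_toZModPow n m h x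

theorem cnt_mono {M N : ℕ} {S S' : Set ℕ} (h : S ⊆ S') (x : ZMod (3 ^ N)) :
    cnt M S N x ≤ cnt M S' N x := by
  classical
  unfold cnt
  apply Finset.card_le_card
  intro O hO
  rw [Finset.mem_filter] at hO ⊢
  exact ⟨hO.1, h hO.2.1, hO.2.2⟩

/-- **Row SYC.** -/
theorem syc (hSyr : SyrStmt) (hMea : MeaStmt) : SycStmt := by
  classical
  intro w hw hw0 hlim n z
  obtain ⟨hprob, hmea⟩ := hMea
  set S : Set ℤ_[3] := {x | PadicInt.toZModPow n x = z} with hS
  have hSm : MeasurableSet S := by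
    have h1 := (hmea n (fun y => if y = z then 1 else 0)).1 (measurableSet_singleton 1)
    have h2 : S = (fun x : ℤ_[3] => (if PadicInt.toZModPow n x = z then (1 : ℝ≥0∞) else 0)) ⁻¹'
        {1} := by
      ext x
      show (PadicInt.toZModPow n x = z) ↔
        (if PadicInt.toZModPow n x = z then (1 : ℝ≥0∞) else 0) = 1
      constructor
      · intro h
        rw [if_pos h]
      · intro h
        by_contra h3
        rw [if_neg h3] at h
        exact zero_ne_one h
    rw [h2]
    exact h1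
  set f : ℕ → ℤ_[3] → ℝ≥0∞ := fun m x => ENNReal.ofReal (Wp m x) with hf
  have hfm : ∀ m, Measurable (f m) := fun m => (hmea m (fun y => ENNReal.ofReal (W m y))).1
  have h1 : ∫⁻ x in S, ENNReal.ofReal (w x) ∂μ3 ≤
      liminf (fun m => ∫⁻ x in S, f m x ∂μ3) atTop := by
    have h2 : ∫⁻ x in S, ENNReal.ofReal (w x) ∂μ3 =
        ∫⁻ x in S, liminf (fun m => f m x) atTop ∂μ3 := by
      apply lintegral_congr_ae
      have h3 := ae_restrict_of_ae (s := S) hlim
      filter_upwards [h3] with x hx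
      exact (ENNReal.tendsto_ofReal hx).liminf_eq.symm
    rw [h2]
    exact lintegral_liminf_le hfm
  have h2 : ∀ m, n ≤ m → ∫⁻ x in S, f m x ∂μ3 ≤
      ENNReal.ofReal ((cnt (3 * m) (Set.Ici n) n z : ℝ) / 2 ^ (3 * m)) := by
    intro m hm
    have h3 := (hmea m (fun y => if pj n m y = z then ENNReal.ofReal (W m y) else 0)).2
    have h4 : ∫⁻ x in S, f m x ∂μ3 = ∫⁻ x, (fun y => if pj n m y = z then
        ENNReal.ofReal (W m y) else 0) (PadicInt.toZModPow m x) ∂μ3 := by
      rw [← lintegral_indicator hSm]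
      apply lintegral_congr
      intro x
      show S.indicator (f m) x = if pj n m (PadicInt.toZModPow m x) = z then
        ENNReal.ofReal (W m (PadicInt.toZModPow m x)) else 0
      rw [pj_toZModPow hm]
      by_cases hx : PadicInt.toZModPow n x = z
      · rw [if_pos hx, Set.indicator_of_mem (show x ∈ S from hx)]
        rfl
      · rw [if_neg hx, Set.indicator_of_notMem (show x ∉ S from hx)]
    rw [h4, h3]
    have h5 : (∑ y : ZMod (3 ^ m), if pj n m y = z then ENNReal.ofReal (W m y) else 0) =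
        ENNReal.ofReal (3 ^ m / 2 ^ (3 * m) * (cnt (3 * m) (Set.Ici m) n z : ℝ)) := by
      rw [← Finset.sum_filter, ← ENNReal.ofReal_sum_of_nonneg]
      · congr 1
        have h6 := Pool.Agent.WIR.H60.prj (3 * m) n m (Set.Ici m) z hm
        rw [← h6]
        push_cast
        rw [Finset.mul_sum]
        rfl
      · intro y _
        unfold W
        positivity
    have h7 : (cnt (3 * m) (Set.Ici m) n z : ℝ) ≤ (cnt (3 * m) (Set.Ici n) n z : ℝ) := by
      exact_mod_cast cnt_mono (Set.Ici_subset_Ici.2 hm) z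
    rw [h5]
    have h8 : (3 : ℝ≥0∞) ^ m = ENNReal.ofReal (3 ^ m) := by
      rw [ENNReal.ofReal_pow (by norm_num), ENNReal.ofReal_ofNat]
    rw [h8, ← ENNReal.ofReal_div_of_pos (by positivity)]
    apply ENNReal.ofReal_le_ofReal
    have h9 : (3 : ℝ) ^ m / 2 ^ (3 * m) * (cnt (3 * m) (Set.Ici m) n z : ℝ) / 3 ^ m =
        (cnt (3 * m) (Set.Ici m) n z : ℝ) / 2 ^ (3 * m) := by
      field_simp
    rw [h9]
    gcongr
  have h3 : Tendsto (fun m : ℕ => ENNReal.ofReal
      ((cnt (3 * m) (Set.Ici n) n z : ℝ) / 2 ^ (3 * m))) atTop (𝓝 (ENNReal.ofReal (Sy n z))) := by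
    apply ENNReal.tendsto_ofReal
    exact (hSyr n z).comp (tendsto_id.const_mul_atTop' (by norm_num : 0 < 3))
  calc ∫⁻ x in S, ENNReal.ofReal (w x) ∂μ3
      ≤ liminf (fun m => ∫⁻ x in S, f m x ∂μ3) atTop := h1
    _ ≤ liminf (fun m : ℕ => ENNReal.ofReal
        ((cnt (3 * m) (Set.Ici n) n z : ℝ) / 2 ^ (3 * m))) atTop := by
        refine liminf_le_liminf ?_
        filter_upwards [eventually_ge_atTop n] with m hm
        exact h2 m hm
    _ = ENNReal.ofReal (Sy n z) := h3.liminf_eq

end Pool.Agent.WR4.H86
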